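import Pool.Agent.Helper20.EQ.St2

/-!
# Project EQ, module GTH: pairs of hits whose cells are thin
-/

set_option autoImplicit false

open MeasureTheory Set Filter Topology
open scoped ENNReal RealInnerProductSpace

namespace Pool.Agent.Helper10.EQ

open Pool.Agent.Helper68.LM (Pl BB Bd Av HL ft fm DQ)
open Pool.Agent.Helper20.RG Pool.Agent.Helper20.EQ

/-- a bounded measurable function with bounded support is integrable -/
theorem bb_integrable {g : Pl → ℝ} (hg : BB g) : Integrable g := by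
  obtain ⟨hm, K, hK, hK'⟩ := hg
  have h1 : IntegrableOn g (Metric.closedBall (0 : Pl) K) := by
    refine Measure.integrableOn_of_bounded (M := K) measure_closedBall_lt_top.ne
      hm.aestronglyMeasurable ?_
    exact ae_of_all _ fun x => by rw [Real.norm_eq_abs]; exact hK x
  have h2 : g = (Metric.closedBall (0 : Pl) K).indicator g := by
    funext x
    by_cases hx : x ∈ Metric.closedBall (0 : Pl) K
    · rw [indicator_of_mem hx]
    · rw [indicator_of_notMem hx]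
      rw [mem_closedBall_zero_iff, not_le] at hx
      exact hK' x hx
  rw [h2]
  exact (integrable_indicator_iff Metric.isClosed_closedBall.measurableSet).2 h1

/-- Tonelli for three measures, and a bound for the inner integrals -/
theorem tonelli (μ₁ μ₂ : Measure Pl) (s : ℝ) (F : Pl → Pl → Pl → ℝ≥0∞) (S : Set Pl) (T : ℝ≥0∞)
    [SFinite μ₁] (hS : MeasurableSet S) (hS1 : volume S = 1)
    (hFm : Measurable (fun q : (Pl × Pl) × Pl => F q.1.1 q.1.2 q.2))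
    (hμ₂ : μ₂ = volume.restrict S)
    (hin : ∀ t : ℝ, t ∈ Icc (-(1 / 2) : ℝ) (1 / 2) → ∀ w ∈ S, ∫⁻ y, F y (t • E s) w ∂μ₁ ≤ T) :
    ∫⁻ y, (∫⁻ a, (∫⁻ w, F y a w ∂μ₂) ∂(sg s)) ∂μ₁ ≤ T := by
  have : SFinite μ₂ := by rw [hμ₂]; infer_instance
  have : IsFiniteMeasure (sg s) := by unfold sg; infer_instance
  have hF1 : Measurable (fun q : Pl × Pl => ∫⁻ w, F q.1 q.2 w ∂μ₂) :=
    Measurable.lintegral_prod_right' (ν := μ₂) hFm
  have e1 : ∫⁻ y, (∫⁻ a, (∫⁻ w, F y a w ∂μ₂) ∂(sg s)) ∂μ₁ =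
      ∫⁻ a, (∫⁻ y, (∫⁻ w, F y a w ∂μ₂) ∂μ₁) ∂(sg s) :=
    lintegral_lintegral_swap (f := fun y a => ∫⁻ w, F y a w ∂μ₂) hF1.aemeasurable
  have e2 : ∀ a : Pl, ∫⁻ y, (∫⁻ w, F y a w ∂μ₂) ∂μ₁ = ∫⁻ w, (∫⁻ y, F y a w ∂μ₁) ∂μ₂ := by
    intro a
    have h1 : Measurable (fun q : Pl × Pl => ((q.1, a), q.2)) :=
      (measurable_fst.prodMk measurable_const).prodMk measurable_snd
    have h2 : Measurable (fun q : Pl × Pl => F q.1 a q.2) := hFm.comp h1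
    exact lintegral_lintegral_swap (f := fun y w => F y a w) h2.aemeasurable
  have hm1 : Measurable (fun a : Pl => ∫⁻ w, (∫⁻ y, F y a w ∂μ₁) ∂μ₂) := by
    have h0 : Measurable (fun q : (Pl × Pl) × Pl => ((q.2, q.1.1), q.1.2)) :=
      (measurable_snd.prodMk (measurable_fst.comp measurable_fst)).prodMk
        (measurable_snd.comp measurable_fst)
    have h1 : Measurable (fun q : (Pl × Pl) × Pl => F q.2 q.1.1 q.1.2) := hFm.comp h0
    have h2 : Measurable (fun q : Pl × Pl => ∫⁻ y, F y q.1 q.2 ∂μ₁) :=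
      Measurable.lintegral_prod_right' (ν := μ₁) h1
    exact Measurable.lintegral_prod_right' (ν := μ₂) h2
  rw [e1, lintegral_congr e2]
  have h3 : ∫⁻ a, (∫⁻ w, (∫⁻ y, F y a w ∂μ₁) ∂μ₂) ∂(sg s) =
      ∫⁻ t in Icc (-(1 / 2) : ℝ) (1 / 2), (∫⁻ w, (∫⁻ y, F y (t • E s) w ∂μ₁) ∂μ₂) := by
    unfold sg
    exact lintegral_map hm1 (by fun_prop)
  rw [h3]
  have hbx : ∀ t ∈ Icc (-(1 / 2) : ℝ) (1 / 2),
      ∫⁻ w, (∫⁻ y, F y (t • E s) w ∂μ₁) ∂μ₂ ≤ T := by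
    intro t ht
    rw [hμ₂]
    calc ∫⁻ w in S, (∫⁻ y, F y (t • E s) w ∂μ₁) ≤ ∫⁻ _w in S, T :=
          setLIntegral_mono' hS fun w hw => hin t ht w hw
      _ = T := by rw [setLIntegral_const, hS1, mul_one]
  calc ∫⁻ t in Icc (-(1 / 2) : ℝ) (1 / 2), (∫⁻ w, (∫⁻ y, F y (t • E s) w ∂μ₁) ∂μ₂)
      ≤ ∫⁻ _t in Icc (-(1 / 2) : ℝ) (1 / 2), T := setLIntegral_mono' measurableSet_Icc hbx
    _ = T := by
        rw [setLIntegral_const, Real.volume_Icc]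
        norm_num

/-- Fubini: the integral of a chord average over a set -/
theorem setL_Y_le (hPT : StPT) (s : ℝ) (c : Pl) (m : ℕ) (k : ℤ) (g : Pl → ℝ) (hg : BB g)
    (B Q : Set Pl) (hB : MeasurableSet B) (hQ : MeasurableSet Q)
    (hsub : ∀ y ∈ B, ∀ t : ℝ, |t| ≤ 1 / 2 → ∀ w ∈ Sq (0 : Pl) (1 / 2),
      y - (2 : ℝ) ^ k • c - ((2 : ℝ) ^ k * (2 : ℝ) ^ 0) • (t • E s) -
        (2 * (2 : ℝ) ^ (k - (m : ℤ))) • w ∈ Q) :
    ∫⁻ y in B, ‖Y s c m ((2 : ℝ) ^ 0) k g y‖ₑ ≤ ∫⁻ y in Q, ‖g y‖ₑ := by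
  have hgm : Measurable g := hg.1
  set F : Pl → Pl → Pl → ℝ≥0∞ := fun y a w =>
    ‖g (y - (2 : ℝ) ^ k • c - ((2 : ℝ) ^ k * (2 : ℝ) ^ 0) • a - (2 * (2 : ℝ) ^ (k - (m : ℤ))) • w)‖ₑ
    with hF
  have hY : ∀ y, ‖Y s c m ((2 : ℝ) ^ 0) k g y‖ₑ ≤ ∫⁻ a, (∫⁻ w, F y a w ∂bx) ∂(sg s) := by
    intro y
    refine (enorm_integral_le_lintegral_enorm _).trans ?_
    refine lintegral_mono fun a => ?_
    exact enorm_integral_le_lintegral_enorm _
  have hFm : Measurable (fun q : (Pl × Pl) × Pl => F q.1.1 q.1.2 q.2) := by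
    refine Measurable.enorm (hgm.comp ?_)
    fun_prop
  have hin : ∀ (a w : Pl), (∀ y ∈ B, y - (2 : ℝ) ^ k • c - ((2 : ℝ) ^ k * (2 : ℝ) ^ 0) • a -
      (2 * (2 : ℝ) ^ (k - (m : ℤ))) • w ∈ Q) → ∫⁻ y in B, F y a w ≤ ∫⁻ y in Q, ‖g y‖ₑ := by
    intro a w h
    rw [← lintegral_indicator hB, ← lintegral_indicator hQ]
    rw [← lintegral_sub_right_eq_self (μ := (volume : Measure Pl)) (Q.indicator fun y => ‖g y‖ₑ)
      ((2 : ℝ) ^ k • c + ((2 : ℝ) ^ k * (2 : ℝ) ^ 0) • a + (2 * (2 : ℝ) ^ (k - (m : ℤ))) • w)]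
    refine lintegral_mono fun y => ?_
    by_cases hy : y ∈ B
    · have h1 := h y hy
      have e : y - ((2 : ℝ) ^ k • c + ((2 : ℝ) ^ k * (2 : ℝ) ^ 0) • a +
          (2 * (2 : ℝ) ^ (k - (m : ℤ))) • w) = y - (2 : ℝ) ^ k • c -
          ((2 : ℝ) ^ k * (2 : ℝ) ^ 0) • a - (2 * (2 : ℝ) ^ (k - (m : ℤ))) • w := by abel
      rw [indicator_of_mem hy, e, indicator_of_mem h1]
    · rw [indicator_of_notMem hy]
      exact bot_le
  have hS := hPT.2.2.2.2.2.2.2 0 (1 / 2) (by norm_num)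
  have hS1 : volume (Sq (0 : Pl) (1 / 2)) = 1 := by
    rw [hS.2]
    norm_num
  refine (lintegral_mono fun y => hY y).trans ?_
  refine tonelli (volume.restrict B) bx s F (Sq 0 (1 / 2)) (∫⁻ y in Q, ‖g y‖ₑ) hS.1 hS1 hFm rfl ?_
  intro t ht w hw
  refine hin _ _ fun y hy => ?_
  exact hsub y hy t (abs_le.2 ⟨by linarith [ht.1], ht.2⟩) w hw

/-- density of the set where a chord average is large, in a thin box -/
theorem dens (hPT : StPT) (hCEF : StCEF) (s : ℝ) (hs : |s| ≤ 1) (c : Pl) (m A : ℕ) (k : ℤ)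
    (g : Pl → ℝ) (hg : BB g) (h0 : ∀ x, 0 ≤ g x) (η κ : ℝ) (hη : 0 < η) (hκ : 0 < κ) (x : Pl)
    (hx : CA s 4 6 k A g (x - (2 : ℝ) ^ k • c) < κ) (hm : A + 1 ≤ m) (a b : ℝ)
    (ha : a ≤ (2 : ℝ) ^ k / 2) (hb : b ≤ (2 : ℝ) ^ (k - (A : ℤ)))
    (hYc : Continuous (Y s c m ((2 : ℝ) ^ 0) k g)) :
    volume ({y | η / 2 < Y s c m ((2 : ℝ) ^ 0) k g y} ∩
      {y | |y 0 - x 0| ≤ a ∧ |pr s (y - x)| ≤ b}) ≤
      ENNReal.ofReal (48 * κ / η * ((2 : ℝ) ^ k * (2 : ℝ) ^ (k - (A : ℤ)))) := by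
  have h2k : (0 : ℝ) < (2 : ℝ) ^ k := by positivity
  have h2a : (0 : ℝ) < (2 : ℝ) ^ (k - (A : ℤ)) := by positivity
  set z : Pl := x - (2 : ℝ) ^ k • c with hz
  obtain ⟨hCm, -, hCA⟩ := hCEF s 4 6 k A z hs (by norm_num) (by norm_num)
  have hCA' := hCA g hg
  set B : Set Pl := {y | |y 0 - x 0| ≤ a ∧ |pr s (y - x)| ≤ b} with hBdef
  have hBm : MeasurableSet B := by
    have h1 : Continuous (fun y : Pl => |y 0 - x 0|) := by fun_prop
    have h2 : Continuous (fun y : Pl => |pr s (y - x)|) := by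
      unfold pr
      fun_prop
    exact ((isClosed_le h1 continuous_const).inter (isClosed_le h2 continuous_const)).measurableSet
  have hfub := setL_Y_le hPT s c m k g hg B (Cel s 4 6 k A z) hBm hCm (by
    intro y hy t ht w hw
    obtain ⟨hy0, hy1⟩ := hy
    obtain ⟨hw0, hw1⟩ := hw
    have e0 : (0 : Pl) 0 = 0 := rfl
    have e1 : (0 : Pl) 1 = 0 := rfl
    rw [e0, sub_zero] at hw0
    rw [e1, sub_zero] at hw1
    have hE0 : (E s) 0 = 1 := (hPT.1 1 s).1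
    have hE1 : (E s) 1 = s := (hPT.1 1 s).2
    have hρ : 2 * (2 : ℝ) ^ (k - (m : ℤ)) ≤ (2 : ℝ) ^ (k - (A : ℤ)) := by
      have h1 : (2 : ℝ) ^ (k - (m : ℤ)) ≤ (2 : ℝ) ^ (k - ((A : ℤ) + 1)) :=
        zpow_le_zpow_right₀ (by norm_num) (by
          have : ((A : ℤ) + 1) ≤ (m : ℤ) := by exact_mod_cast hm
          omega)
      have h2 : (2 : ℝ) ^ (k - ((A : ℤ) + 1)) = (2 : ℝ) ^ (k - (A : ℤ)) / 2 := by
        rw [show k - ((A : ℤ) + 1) = (k - (A : ℤ)) - 1 by ring, zpow_sub_one₀ (by norm_num)]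
        ring
      rw [h2] at h1
      linarith
    have hρA : (2 : ℝ) ^ (k - (A : ℤ)) ≤ (2 : ℝ) ^ k :=
      zpow_le_zpow_right₀ (by norm_num) (by
        have : (0 : ℤ) ≤ (A : ℤ) := Int.natCast_nonneg A
        omega)
    have hρ0 : (0 : ℝ) < 2 * (2 : ℝ) ^ (k - (m : ℤ)) := by positivity
    set ρ : ℝ := 2 * (2 : ℝ) ^ (k - (m : ℤ)) with hρdef
    set v : Pl := y - (2 : ℝ) ^ k • c - ((2 : ℝ) ^ k * (2 : ℝ) ^ 0) • (t • E s) - ρ • w with hv
    have hv0 : v 0 - z 0 = (y 0 - x 0) - (2 : ℝ) ^ k * t - ρ * w 0 := by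
      rw [hv, hz]
      simp only [PiLp.sub_apply, PiLp.smul_apply, smul_eq_mul, hE0]
      ring
    have hv1 : pr s (v - z) = pr s (y - x) - ρ * (w 1 - s * w 0) := by
      rw [hv, hz]
      unfold pr
      simp only [PiLp.sub_apply, PiLp.smul_apply, smul_eq_mul, hE0, hE1]
      ring
    refine ⟨?_, ?_⟩
    · rw [hv0]
      have k1 : |(2 : ℝ) ^ k * t| ≤ (2 : ℝ) ^ k * (1 / 2) := by
        rw [abs_mul, abs_of_pos h2k]
        exact mul_le_mul_of_nonneg_left ht h2k.le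
      have k2 : |ρ * w 0| ≤ ρ * (1 / 2) := by
        rw [abs_mul, abs_of_pos hρ0]
        exact mul_le_mul_of_nonneg_left hw0 hρ0.le
      rw [abs_le] at *
      constructor <;> linarith [k1.1, k1.2, k2.1, k2.2, hy0.1, hy0.2]
    · rw [hv1]
      have k1 : |w 1 - s * w 0| ≤ 1 := by
        have : |s * w 0| ≤ 1 * (1 / 2) := by
          rw [abs_mul]
          exact mul_le_mul hs hw0 (abs_nonneg _) (by norm_num)
        rw [abs_le] at *
        constructor <;> linarith [hw1.1, hw1.2, this.1, this.2]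
      have k2 : |ρ * (w 1 - s * w 0)| ≤ ρ := by
        rw [abs_mul, abs_of_pos hρ0]
        exact mul_le_of_le_one_right hρ0.le k1
      rw [abs_le] at k2 hy1 ⊢
      constructor <;> linarith [k2.1, k2.2, hy1.1, hy1.2])
  have hgint : ∫⁻ y in Cel s 4 6 k A z, ‖g y‖ₑ = ENNReal.ofReal (∫ y in Cel s 4 6 k A z, g y) := by
    rw [ofReal_integral_eq_lintegral_ofReal (bb_integrable hg).restrict
      (ae_of_all _ fun y => h0 y)]
    refine lintegral_congr fun y => ?_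
    rw [Real.enorm_eq_ofReal_abs, abs_of_nonneg (h0 y)]
  have hint : ∫ y in Cel s 4 6 k A z, g y ≤ 24 * κ * ((2 : ℝ) ^ k * (2 : ℝ) ^ (k - (A : ℤ))) := by
    rw [hCA'] at hx
    have hp : (0 : ℝ) < 4 * 6 * (2 : ℝ) ^ k * (2 : ℝ) ^ (k - (A : ℤ)) := by positivity
    rw [one_div, inv_mul_lt_iff₀ hp] at hx
    nlinarith [hx]
  have hch : ENNReal.ofReal (η / 2) * volume ({y | η / 2 < Y s c m ((2 : ℝ) ^ 0) k g y} ∩ B) ≤
      ∫⁻ y in B, ‖Y s c m ((2 : ℝ) ^ 0) k g y‖ₑ := by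
    have h1 : {y | η / 2 < Y s c m ((2 : ℝ) ^ 0) k g y} ∩ B ⊆
        {y | ENNReal.ofReal (η / 2) ≤ ‖Y s c m ((2 : ℝ) ^ 0) k g y‖ₑ} ∩ B := by
      intro y hy
      refine ⟨?_, hy.2⟩
      have hy1 : η / 2 < Y s c m ((2 : ℝ) ^ 0) k g y := hy.1
      change ENNReal.ofReal (η / 2) ≤ ‖Y s c m ((2 : ℝ) ^ 0) k g y‖ₑ
      rw [Real.enorm_eq_ofReal_abs]
      exact ENNReal.ofReal_le_ofReal (hy1.le.trans (le_abs_self _))
    refine (mul_le_mul_right (measure_mono h1) _).trans ?_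
    rw [← Measure.restrict_apply' hBm]
    exact mul_meas_ge_le_lintegral₀ hYc.measurable.enorm.aemeasurable _
  have hη2 : ENNReal.ofReal (η / 2) ≠ 0 := by
    rw [Ne, ENNReal.ofReal_eq_zero, not_le]
    linarith
  have h5 := hch.trans (hfub.trans (hgint.le.trans (ENNReal.ofReal_le_ofReal hint)))
  have h6 : volume ({y | η / 2 < Y s c m ((2 : ℝ) ^ 0) k g y} ∩ B) ≤
      ENNReal.ofReal (24 * κ * ((2 : ℝ) ^ k * (2 : ℝ) ^ (k - (A : ℤ)))) / ENNReal.ofReal (η / 2) := by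
    rw [ENNReal.le_div_iff_mul_le (Or.inl hη2) (Or.inl ENNReal.ofReal_ne_top), mul_comm]
    exact h5
  refine h6.trans ?_
  rw [← ENNReal.ofReal_div_of_pos (by linarith)]
  refine ENNReal.ofReal_le_ofReal (le_of_eq ?_)
  field_simp
  ring

/-- one of the two box scales -/
theorem one (hPT : StPT) (hPRD : StPRD) (hCEY : StCEY) (hCEF : StCEF) (hYC : StYC)
    (s s' η κ : ℝ) (c c' : Pl) (m n n' A : ℕ) (k : ℤ) (g g' : Pl → ℝ) (hs : |s| ≤ 1)
    (hs' : |s'| ≤ 1) (hη : 0 < η) (hη1 : η ≤ 1) (hκ : 0 < κ) (hκη : 100 * κ ≤ η) (hg : BB g)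
    (hg' : BB g') (h01 : ∀ x, 0 ≤ g x ∧ g x ≤ 1) (h01' : ∀ x, 0 ≤ g' x ∧ g' x ≤ 1)
    (hA1 : (2 : ℝ) ^ (-(A : ℤ)) / 2 ≤ |s - s'|) (hA2 : |s - s'| ≤ 2 * (2 : ℝ) ^ (-(A : ℤ))) :
    volume {x | η ≤ Y s c m ((2 : ℝ) ^ 0) k g x ∧ η ≤ |Z s' c' n n' ((2 : ℝ) ^ 0) k g' x| ∧
      ∀ A' ≤ A, CA s 4 6 k A' g (x - (2 : ℝ) ^ k • c) < κ} ≤
      ENNReal.ofReal (8388608 * κ / η ^ 3) *
        volume {x | η / 2 ≤ |Z s' c' n n' ((2 : ℝ) ^ 0) k g' x|} := by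
  obtain ⟨hY1, hY2, hYc⟩ := hCEY s c m k g hs hg (fun x => (h01 x).1)
  have hY2' := hY2 (fun x => (h01 x).2)
  have h2k : (0 : ℝ) < (2 : ℝ) ^ k := by positivity
  have h2A : (0 : ℝ) < (2 : ℝ) ^ (-(A : ℤ)) := by positivity
  have h2kA : (0 : ℝ) < (2 : ℝ) ^ (k - (A : ℤ)) := by positivity
  have hkA : (2 : ℝ) ^ (k - (A : ℤ)) = (2 : ℝ) ^ k * (2 : ℝ) ^ (-(A : ℤ)) := by
    rw [sub_eq_add_neg, zpow_add₀ (by norm_num)]
  have hα : 0 < |s - s'| := by linarith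
  rcases Nat.lt_or_ge A m with hm | hm
  · -- the large box scale
    have hzc := hYC s' c' n n' ((2 : ℝ) ^ 0) k g' hs' (by norm_num) hg'
    have hn'c := (hYC s' c' n' n' ((2 : ℝ) ^ 0) k g' hs' (by norm_num) hg').1
    have hZc : Continuous (Z s' c' n n' ((2 : ℝ) ^ 0) k g') := hzc.1.sub hn'c
    have hZ2 := hzc.2 h01'
    set δ : ℝ := η * (2 : ℝ) ^ (k - (A : ℤ)) / 256 with hδ
    have hδ0 : 0 < δ := by positivity
    have hδα : δ / |s - s'| ≤ η * (2 : ℝ) ^ k / 128 := by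
      rw [div_le_iff₀ hα, hδ, hkA]
      have : η * (2 : ℝ) ^ k / 128 * ((2 : ℝ) ^ (-(A : ℤ)) / 2) ≤ η * (2 : ℝ) ^ k / 128 * |s - s'| :=
        mul_le_mul_of_nonneg_left hA1 (by positivity)
      linarith
    have q1 : ∀ u : ℝ, η ≤ u → 7 * η / 8 < u := fun u hu => by linarith only [hu, hη]
    have q2 : ∀ u v w : ℝ, 7 * η / 8 < u → u - v ≤ w → w ≤ η / 8 → η / 2 ≤ v := fun u v w h1 h2 h3 => by
      linarith only [h1, h2, h3, hη]
    set D : ℝ := 8388608 * κ / η ^ 3 with hD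
    have hD0 : 0 ≤ D := by positivity
    refine hPRD s s' δ D {x | 7 * η / 8 < Y s c m ((2 : ℝ) ^ 0) k g x}
      {x | 7 * η / 8 < |Z s' c' n n' ((2 : ℝ) ^ 0) k g' x|}
      {x | η / 2 < Y s c m ((2 : ℝ) ^ 0) k g x}
      {x | η / 2 ≤ |Z s' c' n n' ((2 : ℝ) ^ 0) k g' x|} _ hs hs' ?_ hδ0 hD0 ?_ ?_ ?_ ?_ ?_ ?_ ?_ ?_
    · intro h
      rw [h, sub_self, abs_zero] at hα
      exact lt_irrefl _ hα
    · exact isOpen_lt continuous_const hYc
    · exact isOpen_lt continuous_const hZc.abs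
    · exact (isOpen_lt continuous_const hYc).measurableSet
    · exact (isClosed_le continuous_const hZc.abs).measurableSet
    · intro y hy lam hlam
      have hy' : 7 * η / 8 < Y s c m ((2 : ℝ) ^ 0) k g y := hy
      have h1 := hY2' y lam
      have h2 : 2 * |lam| / (2 : ℝ) ^ k ≤ η / 8 := by
        rw [div_le_iff₀ h2k]
        have : 8 * δ / |s - s'| = 8 * (δ / |s - s'|) := by ring
        rw [this] at hlam
        nlinarith
      have h3 := (abs_le.1 (h1.trans h2)).1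
      change η / 2 < Y s c m ((2 : ℝ) ^ 0) k g (y + lam • E s)
      linarith
    · intro y hy lam hlam
      have hy' : 7 * η / 8 < |Z s' c' n n' ((2 : ℝ) ^ 0) k g' y| := hy
      have h1 := hZ2 y lam
      have h2 : 2 * |lam| / ((2 : ℝ) ^ k * (2 : ℝ) ^ 0) ≤ η / 8 := by
        rw [pow_zero, mul_one, div_le_iff₀ h2k]
        have : 8 * δ / |s - s'| = 8 * (δ / |s - s'|) := by ring
        rw [this] at hlam
        nlinarith
      have h3 := abs_sub_abs_le_abs_sub (Z s' c' n n' ((2 : ℝ) ^ 0) k g' y)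
        (Z s' c' n n' ((2 : ℝ) ^ 0) k g' (y + lam • E s'))
      rw [abs_sub_comm] at h3
      have h4 := h1.trans h2
      change η / 2 ≤ |Z s' c' n n' ((2 : ℝ) ^ 0) k g' (y + lam • E s')|
      exact q2 _ _ _ hy' h3 h4
    · intro x hx
      obtain ⟨hx1, hx2, -⟩ := hx
      refine ⟨?_, ?_⟩
      · change 7 * η / 8 < Y s c m ((2 : ℝ) ^ 0) k g x
        exact q1 _ hx1
      · change 7 * η / 8 < |Z s' c' n n' ((2 : ℝ) ^ 0) k g' x|
        exact q1 _ hx2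
    · intro x hx
      obtain ⟨-, -, hx3⟩ := hx
      refine (dens hPT hCEF s hs c m A k g hg (fun x => (h01 x).1) η κ hη hκ x (hx3 A le_rfl) hm
        (4 * δ / |s - s'|) (2 * δ) ?_ ?_ hYc).trans (ENNReal.ofReal_le_ofReal ?_)
      · have : 4 * δ / |s - s'| = 4 * (δ / |s - s'|) := by ring
        rw [this]
        nlinarith
      · rw [hδ]
        nlinarith
      · rw [le_div_iff₀ hα]
        have e1 : D * δ ^ 2 = 128 * (κ / η * ((2 : ℝ) ^ k * (2 : ℝ) ^ (k - (A : ℤ)))) *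
            (2 : ℝ) ^ (-(A : ℤ)) := by
          have e2 : D * δ ^ 2 = 128 * (κ / η) * ((2 : ℝ) ^ (k - (A : ℤ)) * (2 : ℝ) ^ (k - (A : ℤ))) := by
            rw [hD, hδ]
            field_simp
            ring
          rw [e2]
          nth_rewrite 1 [hkA]
          ring
        rw [e1]
        have h5 : 0 < κ / η * ((2 : ℝ) ^ k * (2 : ℝ) ^ (k - (A : ℤ))) := by positivity
        have h6 := mul_le_mul_of_nonneg_left hA2 h5.le
        have h7 : 0 < κ / η * ((2 : ℝ) ^ k * (2 : ℝ) ^ (k - (A : ℤ))) * (2 : ℝ) ^ (-(A : ℤ)) :=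
          mul_pos h5 h2A
        have h8 : 48 * κ / η * ((2 : ℝ) ^ k * (2 : ℝ) ^ (k - (A : ℤ))) =
          48 * (κ / η * ((2 : ℝ) ^ k * (2 : ℝ) ^ (k - (A : ℤ)))) := by ring
        rw [h8]
        linarith only [h6, h7]
  · -- the small box scale: the set is empty
    have hemp : {x | η ≤ Y s c m ((2 : ℝ) ^ 0) k g x ∧ η ≤ |Z s' c' n n' ((2 : ℝ) ^ 0) k g' x| ∧
        ∀ A' ≤ A, CA s 4 6 k A' g (x - (2 : ℝ) ^ k • c) < κ} = ∅ := by
      ext x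
      simp only [Set.mem_ofPred_eq, mem_empty_iff_false, iff_false, not_and]
      intro h1 _ h3
      have h4 := h3 m hm
      have h5 := hY1 x
      linarith
    rw [hemp, measure_empty]
    exact bot_le

theorem hGTH (hPT : StPT) (hPRD : StPRD) (hCEY : StCEY) (hCEF : StCEF) (hYC : StYC)
    (hYB : StYB) : StGTH := by
  refine ⟨16777216, by norm_num, ?_⟩
  intro s s' η κ c c' m m' n n' A k g g' hs hs' _ _ hη hη1 hκ hκη hg hg' h01 h01' hA1 hA2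
  have hsub : {x | η ≤ |Z s c m m' ((2 : ℝ) ^ 0) k g x| ∧ η ≤ |Z s' c' n n' ((2 : ℝ) ^ 0) k g' x| ∧
      ∀ A' ≤ A, CA s 4 6 k A' g (x - (2 : ℝ) ^ k • c) < κ} ⊆
      {x | η ≤ Y s c m ((2 : ℝ) ^ 0) k g x ∧ η ≤ |Z s' c' n n' ((2 : ℝ) ^ 0) k g' x| ∧
        ∀ A' ≤ A, CA s 4 6 k A' g (x - (2 : ℝ) ^ k • c) < κ} ∪
      {x | η ≤ Y s c m' ((2 : ℝ) ^ 0) k g x ∧ η ≤ |Z s' c' n n' ((2 : ℝ) ^ 0) k g' x| ∧
        ∀ A' ≤ A, CA s 4 6 k A' g (x - (2 : ℝ) ^ k • c) < κ} := by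
    rintro x ⟨h1, h2, h3⟩
    have p1 := (hYB s c m ((2 : ℝ) ^ 0) k g hs (by norm_num) hg).2.2.1 (fun x => (h01 x).1) x
    have p2 := (hYB s c m' ((2 : ℝ) ^ 0) k g hs (by norm_num) hg).2.2.1 (fun x => (h01 x).1) x
    unfold Z at h1
    rcases le_abs.1 h1 with h | h
    · left
      exact ⟨by linarith, h2, h3⟩
    · right
      exact ⟨by linarith, h2, h3⟩
  refine (measure_mono hsub).trans ((measure_union_le _ _).trans ?_)
  refine (add_le_add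
    (one hPT hPRD hCEY hCEF hYC s s' η κ c c' m n n' A k g g' hs hs' hη hη1 hκ hκη hg hg' h01 h01'
      hA1 hA2)
    (one hPT hPRD hCEY hCEF hYC s s' η κ c c' m' n n' A k g g' hs hs' hη hη1 hκ hκη hg hg' h01 h01'
      hA1 hA2)).trans ?_
  rw [← add_mul, ← ENNReal.ofReal_add (by positivity) (by positivity)]
  refine le_of_eq ?_
  congr 2
  ring

end Pool.Agent.Helper10.EQ
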